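import Mathlib

namespace Pool.Agent.H.MP_024832_nt

lemma nat_isSquare_of_even_factorization {n : ℕ} (hn : n ≠ 0)
    (h : ∀ p : ℕ, p.Prime → Even (n.factorization p)) : IsSquare n := by
  rw [← Nat.prod_factorization_pow_eq_self hn, Finsupp.prod]
  refine Finset.isSquare_prod (s := n.factorization.support) (fun p => p ^ n.factorization p) ?_
  intro p hp
  exact (h p (Nat.prime_of_mem_primeFactors (by simpa using hp))).isSquare_pow p

/-- local condition implies that the absolute value of `c` is the square of an absolute value -/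
lemma exists_norm_sq {ℓ : ℕ} [Fact ℓ.Prime] {c : ℚ_[ℓ]} (hc : c ≠ 0) {u w : ℚ_[ℓ]}
    (h : w ^ 2 = c * (c ^ 2 * u ^ 4 + 1)) (hw : w ≠ 0) : ∃ t : ℚ_[ℓ], t ≠ 0 ∧ ‖c‖ = ‖t‖ ^ 2 := by
  rcases lt_trichotomy ‖c ^ 2 * u ^ 4‖ 1 with hlt | heq | hgt
  · refine ⟨w, hw, ?_⟩
    have h1 : ‖c ^ 2 * u ^ 4 + 1‖ = 1 := by
      rw [Padic.add_eq_max_of_ne (by rw [norm_one]; exact hlt.ne), norm_one, max_eq_right hlt.le]
    rw [← norm_pow, h, norm_mul, h1, mul_one]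
  · have hu : u ≠ 0 := by
      rintro rfl
      simp at heq
    refine ⟨u⁻¹, inv_ne_zero hu, ?_⟩
    have h1 : (‖c‖ * ‖u‖ ^ 2) ^ 2 = 1 := by
      rw [← heq, norm_mul, norm_pow, norm_pow]; ring
    have h2 : ‖c‖ * ‖u‖ ^ 2 = 1 := by
      have h3 : 0 ≤ ‖c‖ * ‖u‖ ^ 2 := by positivity
      nlinarith
    have hu' : ‖u‖ ≠ 0 := norm_ne_zero_iff.2 hu
    rw [norm_inv]
    field_simp
    exact h2
  · have hu : u ≠ 0 := by
      rintro rfl
      simp at hgt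
      linarith
    refine ⟨w / (c * u ^ 2), by positivity, ?_⟩
    have h1 : ‖c ^ 2 * u ^ 4 + 1‖ = ‖c ^ 2 * u ^ 4‖ := by
      rw [Padic.add_eq_max_of_ne (by rw [norm_one]; exact hgt.ne'), norm_one, max_eq_left hgt.le]
    have h2 : ‖w‖ ^ 2 = ‖c‖ * (‖c‖ ^ 2 * ‖u‖ ^ 4) := by
      rw [← norm_pow, h, norm_mul, h1, norm_mul, norm_pow, norm_pow]
    have hu' : ‖u‖ ≠ 0 := norm_ne_zero_iff.2 hu
    have hc' : ‖c‖ ≠ 0 := norm_ne_zero_iff.2 hc
    rw [norm_div, norm_mul, norm_pow, div_pow, h2]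
    field_simp

lemma even_padicValRat {ℓ : ℕ} [hℓ : Fact ℓ.Prime] {c : ℚ} (hc : c ≠ 0) {t : ℚ_[ℓ]} (ht : t ≠ 0)
    (h : ‖(c : ℚ_[ℓ])‖ = ‖t‖ ^ 2) : Even (padicValRat ℓ c) := by
  have h1 : ((t ^ 2 : ℚ_[ℓ])).valuation = (c : ℚ_[ℓ]).valuation := by
    have hc' : (c : ℚ_[ℓ]) ≠ 0 := by exact_mod_cast hc
    have h2 : ‖t ^ 2‖ = ‖(c : ℚ_[ℓ])‖ := by rw [norm_pow, h]
    rw [Padic.norm_eq_zpow_neg_valuation (pow_ne_zero 2 ht), Padic.norm_eq_zpow_neg_valuation hc'] at h2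
    have hl : (1 : ℝ) < ℓ := by exact_mod_cast hℓ.out.one_lt
    have := zpow_right_injective₀ (by linarith) hl.ne' h2
    omega
  rw [Padic.valuation_pow, Padic.valuation_ratCast] at h1
  rw [← h1]
  exact ⟨t.valuation, by ring⟩

theorem isSquare_of_local {c : ℚ} (hc : 0 < c)
    (h : ∀ (ℓ : ℕ) [Fact ℓ.Prime], ∃ u w : ℚ_[ℓ], w ≠ 0 ∧ w ^ 2 = (c : ℚ_[ℓ]) * ((c : ℚ_[ℓ]) ^ 2 * u ^ 4 + 1)) :
    IsSquare c := by
  have hval : ∀ (ℓ : ℕ) [Fact ℓ.Prime], Even (padicValRat ℓ c) := by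
    intro ℓ _
    obtain ⟨u, w, hw, huw⟩ := h ℓ
    obtain ⟨t, ht, htc⟩ := exists_norm_sq (by exact_mod_cast hc.ne') huw hw
    exact even_padicValRat hc.ne' ht htc
  -- c * den ^ 2 = num * den
  have hnum : 0 < c.num := Rat.num_pos.2 hc
  obtain ⟨m, hm⟩ := Int.eq_ofNat_of_zero_le hnum.le
  have hm0 : m ≠ 0 := by
    rintro rfl
    rw [hm] at hnum
    simp at hnum
  have hden : c.den ≠ 0 := c.den_nz
  have hsq : IsSquare (m * c.den) := by
    apply nat_isSquare_of_even_factorization (mul_ne_zero hm0 hden)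
    intro p hp
    have : Fact p.Prime := ⟨hp⟩
    have h1 := hval p
    rw [padicValRat, hm] at h1
    rw [Nat.factorization_mul hm0 hden, Finsupp.add_apply, Nat.factorization_def _ hp, Nat.factorization_def _ hp]
    rw [← Int.even_coe_nat, Nat.cast_add]
    rw [padicValInt.of_nat] at h1
    rw [Int.even_add]
    rw [Int.even_sub] at h1
    exact h1
  obtain ⟨r, hr⟩ := hsq
  refine ⟨(r : ℚ) / c.den, ?_⟩
  have hden' : (c.den : ℚ) ≠ 0 := by exact_mod_cast hden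
  have hc' : c = (m : ℚ) / c.den := by
    have := Rat.num_div_den c
    rw [hm] at this
    exact_mod_cast this.symm
  have hr' : (m : ℚ) * c.den = r * r := by exact_mod_cast hr
  have h5 : (r : ℚ) / c.den * (r / c.den) = (r * r) / (c.den * c.den) := by ring
  rw [h5, ← hr']
  nth_rewrite 1 [hc']
  field_simp

theorem eq_zero_of_isSquare {x : ℚ} (h : IsSquare (x ^ 4 + 1)) : x = 0 := by
  obtain ⟨z, hz⟩ := h
  by_contra hx
  have hden : (x.den : ℚ) ≠ 0 := by exact_mod_cast x.den_nz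
  have hxe : x = (x.num : ℚ) / x.den := (Rat.num_div_den x).symm
  have h1 : (z * x.den ^ 2) ^ 2 = ((x.num ^ 4 + x.den ^ 4 : ℤ) : ℚ) := by
    push_cast
    have : (z * x.den ^ 2) ^ 2 = (z * z) * x.den ^ 4 := by ring
    rw [this, ← hz]
    nth_rewrite 1 [hxe]
    field_simp
  have h2 : IsSquare (x.num ^ 4 + (x.den : ℤ) ^ 4) := by
    rw [← Rat.isSquare_intCast_iff]
    exact ⟨z * x.den ^ 2, by rw [← h1]; ring⟩
  obtain ⟨k, hk⟩ := h2
  exact not_fermat_42 (Rat.num_ne_zero.2 hx) (by exact_mod_cast x.den_nz : (x.den : ℤ) ≠ 0) (c := k) (by rw [hk]; ring)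

end Pool.Agent.H.MP_024832_nt
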