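import Mathlib

/-!
# Fibrations over a curve over `ℚ`, and the rational points with locally soluble fibre
-/

open CategoryTheory Limits AlgebraicGeometry

namespace Pool.Agent.H.MP_024832_nt

/-- The scheme `Spec ℚ`. -/
noncomputable abbrev SpecQ : Scheme.{0} := Spec (CommRingCat.of ℚ)

/-- The `ℚ`-scheme `Y` has a point over the extension field `K` of `ℚ`: there is a morphism
`Spec K ⟶ Y` of `ℚ`-schemes. -/
def HasPoint (Y : Over SpecQ) (K : Type) [Field K] [Algebra ℚ K] : Prop :=
  Nonempty (Over.mk (Spec.map (CommRingCat.ofHom (algebraMap ℚ K))) ⟶ Y)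

/-- The `ℚ`-scheme `Y` has points everywhere locally: it has a point over `ℝ` and a point over
`ℚ_ℓ` for every prime number `ℓ`. -/
def HasPointsEverywhereLocally (Y : Over SpecQ) : Prop :=
  HasPoint Y ℝ ∧ ∀ (ℓ : ℕ) [Fact ℓ.Prime], HasPoint Y ℚ_[ℓ]

/-- The set `E(ℚ)` of rational points of a `ℚ`-scheme `E`: the morphisms `Spec ℚ ⟶ E` of
`ℚ`-schemes. -/
abbrev RationalPoints (E : Over SpecQ) : Type := Over.mk (𝟙 SpecQ) ⟶ E

/-- The fibre `X_P` of a morphism `φ : X ⟶ E` of `ℚ`-schemes over a rational point `P` of `E`,
as a `ℚ`-scheme: the fibre product of `X` and `Spec ℚ` over `E`. -/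
noncomputable def fibreOver {X E : Over SpecQ} (φ : X ⟶ E) (P : RationalPoints E) : Over SpecQ :=
  Over.mk (pullback.snd φ.left P.left)

/-- The set `Z(φ)` of the rational points `P` of `E` such that the fibre `X_P` has points
everywhere locally. -/
def Z {X E : Over SpecQ} (φ : X ⟶ E) : Set (RationalPoints E) :=
  {P | HasPointsEverywhereLocally (fibreOver φ P)}

/-- `φ : X ⟶ E` is a fibration: `X` is an integral variety over `ℚ` (an integral scheme, separated
and of finite type over `ℚ`) and `φ` is a dominant morphism of `ℚ`-schemes whose generic fibre is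
smooth and geometrically irreducible. -/
structure IsFibration {X E : Over SpecQ} [IrreducibleSpace E.left] (φ : X ⟶ E) : Prop where
  isIntegral : IsIntegral X.left
  isSeparated : IsSeparated X.hom
  locallyOfFiniteType : LocallyOfFiniteType X.hom
  quasiCompact : QuasiCompact X.hom
  isDominant : IsDominant φ.left
  smooth_genericFibre : Smooth (φ.left.fiberToSpecResidueField (genericPoint E.left))
  geometricallyIrreducible_genericFibre :
    GeometricallyIrreducible (φ.left.fiberToSpecResidueField (genericPoint E.left))

end Pool.Agent.H.MP_024832_nt
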