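import Pool.Agent.H.MP_024832_nt.Universal
import Pool.Agent.H.MP_024832_nt.Defs
import Pool.Agent.H.MP_024832_nt.Arith

open Polynomial TensorProduct CategoryTheory Limits AlgebraicGeometry

namespace Pool.Agent.H.MP_024832_nt

instance subsingleton_hom_SpecQ (T : Scheme.{0}) : Subsingleton (T ⟶ SpecQ) := ⟨fun f g => by
  apply ext_of_isAffine
  have e := Scheme.ΓSpecIso (CommRingCat.of ℚ)
  rw [← cancel_epi (Scheme.ΓSpecIso (CommRingCat.of ℚ)).inv]
  ext x
  exact congrArg (fun φ : ℚ →+* _ => φ x) (Subsingleton.elim _ _)⟩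

section construction
variable (R : Type) [CommRing R] [Algebra ℚ R] (h : R)

/-- the localization `R[1/(h⁴+1)]` -/
abbrev Rf : Type := Localization.Away (h ^ 4 + 1)

/-- the ring homomorphism `ℚ[t,1/t] → R[1/(h⁴+1)]`, `t ↦ h⁴ + 1` -/
noncomputable def gam : B₀ →+* Rf R h :=
  IsLocalization.Away.lift (X : ℚ[X])
    (g := (aeval (algebraMap R (Rf R h) (h ^ 4 + 1)) : ℚ[X] →ₐ[ℚ] Rf R h).toRingHom) (by
      simpa only [AlgHom.toRingHom_eq_coe, RingHom.coe_coe, aeval_X] using
        IsLocalization.Away.algebraMap_isUnit (S := Rf R h) (h ^ 4 + 1))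

lemma gam_tt : gam R h tt = algebraMap R (Rf R h) (h ^ 4 + 1) := by
  rw [gam, tt, IsLocalization.Away.lift_eq]
  simp only [AlgHom.toRingHom_eq_coe, RingHom.coe_coe, aeval_X]

/-- the morphism `Spec R[1/(h⁴+1)] ⟶ 𝔾ₘ` -/
noncomputable def gg : Spec (CommRingCat.of (Rf R h)) ⟶ Spec (CommRingCat.of B₀) :=
  Spec.map (CommRingCat.ofHom (gam R h))

/-- the open immersion `Spec R[1/(h⁴+1)] ⟶ E` -/
noncomputable def ii {E : Scheme.{0}} (j : Spec (CommRingCat.of R) ⟶ E) : Spec (CommRingCat.of (Rf R h)) ⟶ E :=
  Spec.map (CommRingCat.ofHom (algebraMap R (Rf R h))) ≫ j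

instance {E : Scheme.{0}} (j : Spec (CommRingCat.of R) ⟶ E) [IsOpenImmersion j] : IsOpenImmersion (ii R h j) := by
  have : IsOpenImmersion (Spec.map (CommRingCat.ofHom (algebraMap R (Rf R h)))) :=
    IsOpenImmersion.of_isLocalization (h ^ 4 + 1)
  rw [ii]
  infer_instance

/-- the total space -/
noncomputable abbrev XX : Scheme.{0} := pullback q (gg R h)

/-- the fibration -/
noncomputable def phi {E : Scheme.{0}} (j : Spec (CommRingCat.of R) ⟶ E) : XX R h ⟶ E :=
  pullback.snd q (gg R h) ≫ ii R h j

variable [IsDomain R] [IsNoetherianRing R] (hne : h ^ 4 + 1 ≠ 0)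

omit [Algebra ℚ R] [IsNoetherianRing R] in
include hne in
lemma isDomain_Rf : IsDomain (Rf R h) :=
  IsLocalization.isDomain_localization (powers_le_nonZeroDivisors_of_noZeroDivisors hne)

include hne in
lemma isIntegral_XX : IsIntegral (XX R h) := by
  have := isDomain_Rf R h hne
  have : IsNoetherianRing (Rf R h) := IsLocalization.isNoetherianRing (Submonoid.powers (h ^ 4 + 1)) _ inferInstance
  have : IsLocallyNoetherian (Spec (CommRingCat.of (Rf R h))) := inferInstance
  infer_instance

instance : IsAffine (XX R h) := inferInstance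

instance {E : Scheme.{0}} (j : Spec (CommRingCat.of R) ⟶ E) [IsOpenImmersion j] : Smooth (phi R h j) := by
  have h1 : Smooth (pullback.snd q (gg R h)) := inferInstance
  have h2 : Smooth (ii R h j) := inferInstance
  exact smooth_comp _ _

omit [IsNoetherianRing R] in
include hne in
lemma isDominant_phi {E : Scheme.{0}} [IrreducibleSpace E] (j : Spec (CommRingCat.of R) ⟶ E) [IsOpenImmersion j] :
    IsDominant (phi R h j) := by
  have := isDomain_Rf R h hne
  have : Surjective (pullback.snd q (gg R h)) := inferInstance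
  have : IsDominant (ii R h j) := by
    refine ⟨?_⟩
    have hopen := (ii R h j).isOpenEmbedding.isOpen_range
    have hnonempty : (Set.range (ii R h j)).Nonempty := Set.range_nonempty _
    exact hopen.dense hnonempty
  have h3 : IsDominant (pullback.snd q (gg R h)) := inferInstance
  exact MorphismProperty.comp_mem @IsDominant _ _ h3 this

omit [IsNoetherianRing R] in
include hne in
lemma geomIrr_phi {E : Scheme.{0}} [IrreducibleSpace E] (j : Spec (CommRingCat.of R) ⟶ E) [IsOpenImmersion j] :
    GeometricallyIrreducible ((phi R h j).fiberToSpecResidueField (genericPoint E)) := by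
  have := isDomain_Rf R h hne
  exact geometricallyIrreducible_genericFibre (pullback.snd q (gg R h)) (ii R h j)

end construction

end Pool.Agent.H.MP_024832_nt
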