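import Pool.Agent.H.MP_024832_nt.Points

open Polynomial TensorProduct CategoryTheory Limits AlgebraicGeometry

namespace Pool.Agent.H.MP_024832_nt

section ringpoints
variable (R : Type) [CommRing R] [Algebra ℚ R]

lemma ringHom_apply_algebraMap (ρ : R →+* ℚ) (x : ℚ) : ρ (algebraMap ℚ R x) = x := by
  have : ρ.comp (algebraMap ℚ R) = RingHom.id ℚ := Subsingleton.elim _ _
  exact congrArg (fun f : ℚ →+* ℚ => f x) this

lemma ringHom_ext_of_ker {ρ σ : R →+* ℚ} (h : RingHom.ker ρ ≤ RingHom.ker σ) : ρ = σ := by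
  ext r
  have h1 : r - algebraMap ℚ R (ρ r) ∈ RingHom.ker ρ := by
    rw [RingHom.mem_ker, map_sub, ringHom_apply_algebraMap, sub_self]
  have h2 := h h1
  rw [RingHom.mem_ker, map_sub, ringHom_apply_algebraMap, sub_eq_zero] at h2
  exact h2.symm

lemma finite_ringHom [IsDomain R] [IsNoetherianRing R] [Ring.KrullDimLE 1 R] {h : R} (hh : h ≠ 0) :
    {ρ : R →+* ℚ | ρ h = 0}.Finite := by
  have hfin : ((Ideal.span {h}).minimalPrimes).Finite := Ideal.finite_minimalPrimes_of_isNoetherianRing R _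
  refine Set.Finite.of_finite_image (f := fun ρ : R →+* ℚ => RingHom.ker ρ) (hfin.subset ?_) ?_
  · rintro _ ⟨ρ, hρ, rfl⟩
    have hprime : (RingHom.ker ρ).IsPrime := RingHom.ker_isPrime ρ
    refine ⟨⟨hprime, ?_⟩, ?_⟩
    · rw [Ideal.span_singleton_le_iff_mem]
      exact hρ
    · rintro J ⟨hJ, hJh⟩ hle
      have hJ0 : J ≠ ⊥ := by
        rintro rfl
        rw [Ideal.span_singleton_le_iff_mem, Ideal.mem_bot] at hJh
        exact hh hJh
      have hmax : J.IsMaximal := hJ.isMaximal_of_ne_bot hJ0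
      exact (hmax.eq_of_le hprime.ne_top hle).ge
  · intro ρ _ σ _ hρσ
    exact ringHom_ext_of_ker R (le_of_eq hρσ)

lemma exists_h [IsDomain R] [IsNoetherianRing R] [Ring.KrullDimLE 1 R] (ρ₀ : R →+* ℚ) :
    ∃ h : R, ρ₀ h = 0 ∧ {ρ : R →+* ℚ | ρ h = 0}.Finite := by
  by_cases hker : RingHom.ker ρ₀ = ⊥
  · refine ⟨0, map_zero _, ?_⟩
    have : {ρ : R →+* ℚ | ρ 0 = 0} ⊆ {ρ₀} := by
      intro ρ _
      rw [Set.mem_singleton_iff]
      exact (ringHom_ext_of_ker R (hker ▸ bot_le)).symm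
    exact (Set.finite_singleton ρ₀).subset this
  · obtain ⟨h, hh, hne⟩ := Submodule.exists_mem_ne_zero_of_ne_bot hker
    exact ⟨h, hh, finite_ringHom R hne⟩

end ringpoints

/-- points of the fibre over `ℚ` give points over all extensions -/
lemma hasPoint_of_section {Y : Over SpecQ} (s : SpecQ ⟶ Y.left) (K : Type) [Field K] [Algebra ℚ K] : HasPoint Y K :=
  ⟨Over.homMk (Spec.map (CommRingCat.ofHom (algebraMap ℚ K)) ≫ s) (Subsingleton.elim _ _)⟩

lemma main_ring (R : Type) [CommRing R] [Algebra ℚ R] [IsDomain R] [IsNoetherianRing R] [Ring.KrullDimLE 1 R]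
    (E : Over SpecQ) [IsIntegral E.left] [LocallyOfFiniteType E.hom]
    (j : Spec (CommRingCat.of R) ⟶ E.left) [IsOpenImmersion j] (ρ₀ : R →+* ℚ) (P₀ : RationalPoints E)
    (hP₀ : P₀.left = Spec.map (CommRingCat.ofHom ρ₀) ≫ j) :
    ∃ (X : Over SpecQ) (φ : X ⟶ E), IsFibration φ ∧ (Z φ).Finite ∧ P₀ ∈ Z φ := by
  obtain ⟨h, hh0, hfin⟩ := exists_h R ρ₀
  have hne : h ^ 4 + 1 ≠ 0 := by
    intro h0
    have := congrArg ρ₀ h0
    rw [map_add, map_pow, hh0] at this
    norm_num at this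
  let X : Over SpecQ := Over.mk (phi R h j ≫ E.hom)
  let φ : X ⟶ E := Over.homMk (phi R h j) rfl
  have hφ : φ.left = phi R h j := rfl
  refine ⟨X, φ, ?_, ?_, ?_⟩
  · have haff : IsAffine X.left := inferInstanceAs (IsAffine (XX R h))
    have hX : IsAffineHom X.hom := inferInstance
    have hsm : Smooth φ.left := inferInstanceAs (Smooth (phi R h j))
    exact
    { isIntegral := isIntegral_XX R h hne
      isSeparated := inferInstance
      locallyOfFiniteType := by
        have h1 : LocallyOfFiniteType (phi R h j) := inferInstance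
        exact MorphismProperty.comp_mem @LocallyOfFiniteType _ _ h1 inferInstance
      quasiCompact := inferInstance
      isDominant := isDominant_phi R h hne j
      smooth_genericFibre := MorphismProperty.pullback_snd (P := @Smooth) _ _ hsm
      geometricallyIrreducible_genericFibre := geomIrr_phi R h hne j }
  · -- finiteness
    have hsub : Z φ ⊆ (fun P : RationalPoints E => P.left) ⁻¹'
        ((fun ρ : R →+* ℚ => Spec.map (CommRingCat.ofHom ρ) ≫ j) '' {ρ : R →+* ℚ | ρ h = 0}) := by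
      rintro P ⟨hR, hℓ⟩
      obtain ⟨sR⟩ := hR
      obtain ⟨ρ, hPρ, -⟩ := factor R h j P.left sR.left
      refine ⟨ρ, ?_, hPρ.symm⟩
      have hsq : IsSquare (ρ h ^ 4 + 1) := by
        apply isSquare_of_local (by positivity)
        intro ℓ _
        obtain ⟨s⟩ := hℓ ℓ
        obtain ⟨σ, hPσ, u, w, hw, huw⟩ := factor R h j P.left s.left
        have hσρ : σ = ρ := by
          have h1 : Spec.map (CommRingCat.ofHom σ) ≫ j = Spec.map (CommRingCat.ofHom ρ) ≫ j := by
            rw [← hPσ, ← hPρ]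
          rw [cancel_mono] at h1
          have h2 := Spec.map_injective h1
          exact congrArg CommRingCat.Hom.hom h2
        subst hσρ
        exact ⟨u, w, hw, huw⟩
      exact eq_zero_of_isSquare hsq
    refine Set.Finite.subset (Set.Finite.preimage ?_ (hfin.image _)) hsub
    intro P _ Q _ hPQ
    exact Over.OverMorphism.ext hPQ
  · obtain ⟨s⟩ := exists_point R h j ρ₀ hh0
    have s' : SpecQ ⟶ (fibreOver φ P₀).left := by
      change SpecQ ⟶ pullback (phi R h j) P₀.left
      rw [hP₀]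
      exact s
    exact ⟨hasPoint_of_section s' ℝ, fun ℓ _ => hasPoint_of_section s' ℚ_[ℓ]⟩

theorem main (E : Over SpecQ) [IsIntegral E.left] [LocallyOfFiniteType E.hom]
    (hdim : topologicalKrullDim E.left ≤ 1) (P₀ : RationalPoints E) :
    ∃ (X : Over SpecQ) (φ : X ⟶ E), IsFibration φ ∧ (Z φ).Finite ∧ P₀ ∈ Z φ := by
  let x₀ : SpecQ := IsLocalRing.closedPoint ℚ
  obtain ⟨_, ⟨U, hU, rfl⟩, hxU, -⟩ :=
    E.left.isBasis_affineOpens.exists_subset_of_mem_open (Set.mem_univ (P₀.left x₀)) isOpen_univ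
  let R : Type := Γ(E.left, U)
  let j : Spec (CommRingCat.of R) ⟶ E.left := hU.fromSpec
  have hj : IsOpenImmersion j := inferInstanceAs (IsOpenImmersion hU.fromSpec)
  have : Nonempty U := ⟨⟨_, hxU⟩⟩
  have hdom : IsDomain R := inferInstanceAs (IsDomain Γ(E.left, U))
  have hlN : IsLocallyNoetherian E.left := LocallyOfFiniteType.isLocallyNoetherian E.hom
  have hN : IsNoetherianRing R := hlN.component_noetherian ⟨U, hU⟩
  let _ : Algebra ℚ R := (Spec.preimage (j ≫ E.hom)).hom.toAlgebra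
  have hK : Ring.KrullDimLE 1 R := by
    rw [Ring.krullDimLE_iff, ← PrimeSpectrum.topologicalKrullDim_eq_ringKrullDim]
    exact (j.isOpenEmbedding.isInducing.topologicalKrullDim_le).trans hdim
  have hrange : Set.range P₀.left ⊆ Set.range j := by
    rintro _ ⟨x, rfl⟩
    have hx : x = x₀ := Subsingleton.elim (α := PrimeSpectrum ℚ) _ _
    rw [hx]
    change _ ∈ Set.range hU.fromSpec
    rw [hU.range_fromSpec]
    exact hxU
  obtain ⟨ρ₀, hρ₀⟩ := Spec.map_surjective (IsOpenImmersion.lift j P₀.left hrange)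
  refine main_ring R E j ρ₀.hom P₀ ?_
  have : Spec.map ρ₀ ≫ j = P₀.left := by rw [hρ₀, IsOpenImmersion.lift_fac]
  exact this.symm

end Pool.Agent.H.MP_024832_nt
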