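import Pool.Agent.H.MP_024832_nt.Construction

open Polynomial TensorProduct CategoryTheory Limits AlgebraicGeometry

namespace Pool.Agent.H.MP_024832_nt

section points
variable (R : Type) [CommRing R] [Algebra ℚ R] (h : R)

lemma B₁_rel : (pair B₀ tt).X ^ 2 = algebraMap B₀[X] B₁ (gpoly B₀ tt) := by
  have h1 := (pair B₀ tt).hasMap_X.1
  have h2 : (pair B₀ tt).f = X ^ 2 - C (gpoly B₀ tt) := rfl
  rw [h2] at h1
  simpa [sub_eq_zero] using h1

lemma B₁_isUnit : IsUnit (pair B₀ tt).X := by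
  have h1 := (pair B₀ tt).hasMap_X.2
  have h2 : (pair B₀ tt).g = X := rfl
  rw [h2] at h1
  simpa using h1

lemma factor {E : Scheme.{0}} (j : Spec (CommRingCat.of R) ⟶ E) [IsOpenImmersion j] {K : Type} [Field K] [Algebra ℚ K]
    (P : SpecQ ⟶ E) (s : Spec (CommRingCat.of K) ⟶ pullback (phi R h j) P) :
    ∃ ρ : R →+* ℚ, P = Spec.map (CommRingCat.ofHom ρ) ≫ j ∧ ∃ u w : K, w ≠ 0 ∧
      w ^ 2 = algebraMap ℚ K (ρ h ^ 4 + 1) * (algebraMap ℚ K (ρ h ^ 4 + 1) ^ 2 * u ^ 4 + 1) := by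
  obtain ⟨a, ha⟩ : ∃ a : Spec (CommRingCat.of K) ⟶ XX R h, a = s ≫ pullback.fst (phi R h j) P := ⟨_, rfl⟩
  have e1 : a ≫ phi R h j = (s ≫ pullback.snd (phi R h j) P) ≫ P := by
    rw [ha, Category.assoc, Category.assoc, pullback.condition]
  have e2 : s ≫ pullback.snd (phi R h j) P = Spec.map (CommRingCat.ofHom (algebraMap ℚ K)) :=
    Subsingleton.elim _ _
  rw [e2] at e1
  have hrange : Set.range P ⊆ Set.range (ii R h j) := by
    rintro _ ⟨x, rfl⟩
    let y : Spec (CommRingCat.of K) := IsLocalRing.closedPoint K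
    have hx : x = (Spec.map (CommRingCat.ofHom (algebraMap ℚ K))) y := Subsingleton.elim (α := PrimeSpectrum ℚ) _ _
    refine ⟨(a ≫ pullback.snd q (gg R h)) y, ?_⟩
    rw [hx, ← Scheme.Hom.comp_apply, ← Scheme.Hom.comp_apply, ← e1, Category.assoc]
    rfl
  obtain ⟨ρ', hρ'⟩ := Spec.map_surjective (IsOpenImmersion.lift (ii R h j) P hrange)
  have hP' : Spec.map ρ' ≫ ii R h j = P := by rw [hρ', IsOpenImmersion.lift_fac]
  refine ⟨ρ'.hom.comp (algebraMap R (Rf R h)), ?_, ?_⟩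
  · rw [← hP', ii, ← Category.assoc, ← Spec.map_comp]
    rfl
  · have e3 : a ≫ pullback.snd q (gg R h) = Spec.map (CommRingCat.ofHom (algebraMap ℚ K)) ≫ Spec.map ρ' := by
      rw [← cancel_mono (ii R h j)]
      calc (a ≫ pullback.snd q (gg R h)) ≫ ii R h j = a ≫ phi R h j := by rw [Category.assoc]; rfl
        _ = Spec.map (CommRingCat.ofHom (algebraMap ℚ K)) ≫ (Spec.map ρ' ≫ ii R h j) := by rw [e1, hP']
        _ = _ := by rw [Category.assoc]
    obtain ⟨β, hβ⟩ := Spec.map_surjective (a ≫ pullback.fst q (gg R h))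
    have e4 : Spec.map β ≫ q = (Spec.map (CommRingCat.ofHom (algebraMap ℚ K)) ≫ Spec.map ρ') ≫ gg R h := by
      rw [hβ, ← e3, Category.assoc, Category.assoc, pullback.condition]
    rw [q, gg, ← Spec.map_comp, ← Spec.map_comp, ← Spec.map_comp] at e4
    have e5 := Spec.map_injective e4
    have e6 : β.hom (algebraMap B₀ B₁ tt) = algebraMap ℚ K (ρ'.hom (algebraMap R (Rf R h) (h ^ 4 + 1))) := by
      rw [← gam_tt]
      exact congrArg (fun f => f.hom tt) e5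
    have hc : algebraMap ℚ K (((ρ'.hom.comp (algebraMap R (Rf R h))) h) ^ 4 + 1) =
        algebraMap ℚ K (ρ'.hom (algebraMap R (Rf R h) (h ^ 4 + 1))) := by
      simp
    refine ⟨β.hom (algebraMap B₀[X] B₁ X), β.hom (pair B₀ tt).X, (B₁_isUnit.map β.hom).ne_zero, ?_⟩
    rw [hc]
    generalize algebraMap ℚ K (ρ'.hom (algebraMap R (Rf R h) (h ^ 4 + 1))) = c at e6 ⊢
    have h1 : β.hom (pair B₀ tt).X ^ 2 = β.hom (algebraMap B₀[X] B₁ (gpoly B₀ tt)) := by
      rw [← B₁_rel, map_pow]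
    have h2 : ∀ r : B₀, β.hom (algebraMap B₀[X] B₁ (C r)) = β.hom (algebraMap B₀ B₁ r) := fun r => rfl
    rw [h1, gpoly]
    simp only [map_mul, map_add, map_pow, map_one, h2, e6]

lemma exists_point {E : Scheme.{0}} (j : Spec (CommRingCat.of R) ⟶ E) (ρ : R →+* ℚ) (hρ : ρ h = 0) :
    Nonempty (SpecQ ⟶ pullback (phi R h j) (Spec.map (CommRingCat.ofHom ρ) ≫ j)) := by
  have hu : IsUnit (ρ (h ^ 4 + 1)) := by
    rw [map_add, map_pow, hρ]; norm_num
  let ρ' : Rf R h →+* ℚ := IsLocalization.Away.lift (h ^ 4 + 1) hu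
  have hρ' : ρ'.comp (algebraMap R (Rf R h)) = ρ := IsLocalization.Away.lift_comp _ _
  let τ : B₀[X] →+* ℚ := eval₂RingHom (ρ'.comp (gam R h)) 0
  let : Algebra B₀[X] ℚ := τ.toAlgebra
  have ht : (ρ'.comp (gam R h)) tt = 1 := by
    rw [RingHom.comp_apply, gam_tt, ← RingHom.comp_apply, hρ', map_add, map_pow, hρ]; norm_num
  have hmap : (pair B₀ tt).HasMap (1 : ℚ) := by
    refine ⟨?_, ?_⟩
    · have h2 : (pair B₀ tt).f = X ^ 2 - C (gpoly B₀ tt) := rfl
      rw [h2, map_sub, map_pow, aeval_X, aeval_C]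
      have h3 : algebraMap B₀[X] ℚ (gpoly B₀ tt) = τ (gpoly B₀ tt) := rfl
      rw [h3, gpoly]
      simp only [τ, coe_eval₂RingHom, eval₂_mul, eval₂_C, eval₂_add, eval₂_pow, eval₂_X, eval₂_one, ht]
      norm_num
    · have h2 : (pair B₀ tt).g = X := rfl
      rw [h2, aeval_X]
      exact isUnit_one
  let β : B₁ →+* ℚ := ((pair B₀ tt).lift (1 : ℚ) hmap).toRingHom
  have hβ : β.comp (algebraMap B₀ B₁) = ρ'.comp (gam R h) := by
    ext r
    have h1 : β (algebraMap B₀ B₁ r) = τ (C r) := ((pair B₀ tt).lift (1 : ℚ) hmap).commutes (C r)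
    rw [RingHom.comp_apply, h1]
    simp [τ]
  let a : SpecQ ⟶ XX R h := pullback.lift (Spec.map (CommRingCat.ofHom β)) (Spec.map (CommRingCat.ofHom ρ')) (by
    rw [q, gg, ← Spec.map_comp, ← Spec.map_comp, ← CommRingCat.ofHom_comp, ← CommRingCat.ofHom_comp, hβ])
  have ha : a ≫ phi R h j = Spec.map (CommRingCat.ofHom ρ) ≫ j := by
    rw [phi, ii, pullback.lift_snd_assoc, ← Category.assoc, ← Spec.map_comp, ← CommRingCat.ofHom_comp, hρ']
  exact ⟨pullback.lift a (𝟙 _) (by rw [ha, Category.id_comp])⟩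

end points

end Pool.Agent.H.MP_024832_nt
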