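import Mathlib

open Polynomial TensorProduct

namespace Pool.Agent.H.MP_024832_nt

section pair
variable (R : Type) [CommRing R] [Algebra ℚ R] (t : R)

/-- `t (t² u⁴ + 1)` -/
noncomputable def gpoly : R[X] := C t * (C t ^ 2 * X ^ 4 + 1)

/-- the standard étale pair `w² = t (t² u⁴ + 1)`, `w` invertible, over `R[u]` -/
noncomputable def pair : StandardEtalePair R[X] where
  f := X ^ 2 - C (gpoly R t)
  monic_f := monic_X_pow_sub_C _ (by norm_num)
  g := X
  cond := by
    refine ⟨C (C (algebraMap ℚ R (1 / 2))), 0, 1, ?_⟩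
    have h : (C (C (2 : R)) : R[X][X]) * C (C (algebraMap ℚ R (1 / 2))) = 1 := by
      rw [← C_mul, ← C_mul]
      have : (2 : R) * algebraMap ℚ R (1 / 2) = 1 := by
        have h2 : (2 : R) = algebraMap ℚ R 2 := (map_ofNat (algebraMap ℚ R) 2).symm
        rw [h2, ← map_mul]; norm_num
      rw [this]; simp
    have hd : derivative (X ^ 2 - C (gpoly R t) : R[X][X]) = C (C (2 : R)) * X := by
      simp only [derivative_sub, derivative_X_pow, derivative_C, sub_zero, Nat.cast_ofNat,
        Nat.add_one_sub_one, pow_one, map_ofNat]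
    rw [hd]
    linear_combination (X : R[X][X]) * h

end pair

lemma pair_map {R S : Type} [CommRing R] [Algebra ℚ R] [CommRing S] [Algebra ℚ S] (φ : R →+* S) (t : R) :
    (pair R t).map (mapRingHom φ) = pair S (φ t) := by
  have h1 : ((pair R t).map (mapRingHom φ)).f = (pair S (φ t)).f := by
    simp [pair, gpoly]
  have h2 : ((pair R t).map (mapRingHom φ)).g = (pair S (φ t)).g := by
    simp [pair]
  cases hP : (pair R t).map (mapRingHom φ)
  cases hQ : pair S (φ t)
  rw [hP, hQ] at h1 h2
  simp only at h1 h2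
  subst h1 h2
  rfl

section field
variable (L : Type) [Field L] [Algebra ℚ L] (c : L)

lemma gpoly_ne_sq {c : L} (hc : c ≠ 0) (q : L[X]) : q ^ 2 ≠ gpoly L c := by
  intro h
  have : CharZero L := algebraRat.charZero L
  -- differentiate
  have hd : q * (2 * derivative q) = C (4 * c ^ 3) * X ^ 3 := by
    have := congrArg derivative h
    rw [gpoly] at this
    simp only [derivative_pow, Nat.cast_ofNat, Nat.add_one_sub_one, pow_one, derivative_mul, derivative_C, zero_mul, derivative_add,
      derivative_X, mul_one, derivative_one, add_zero, zero_add, map_ofNat, ← C_pow] at this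
    rw [show (C (4 * c ^ 3) : L[X]) = C 4 * C c ^ 3 by rw [← C_pow, ← C_mul]]
    simp only [map_ofNat, map_pow] at this ⊢
    linear_combination this
  have hqdvd : q ∣ X ^ 3 := by
    have h1 : q ∣ C (4 * c ^ 3) * X ^ 3 := ⟨_, hd.symm⟩
    have hu : IsUnit (C (4 * c ^ 3) : L[X]) := by
      rw [isUnit_C]
      exact IsUnit.mk0 _ (mul_ne_zero (by norm_num) (pow_ne_zero _ hc))
    exact (hu.dvd_mul_left).1 h1
  have hX : ¬ X ∣ q := by
    intro hX
    have h1 : X ∣ gpoly L c := by rw [← h]; exact dvd_pow hX (by norm_num)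
    rw [X_dvd_iff, gpoly] at h1
    simp at h1
    exact hc h1
  obtain ⟨i, hi, hass⟩ := (dvd_prime_pow (prime_X (R := L)) 3).1 hqdvd
  have hi0 : i = 0 := by
    by_contra hi0
    exact hX ((dvd_pow_self X hi0).trans hass.symm.dvd)
  subst hi0
  rw [pow_zero, associated_one_iff_isUnit] at hass
  obtain ⟨r, hr, hrq⟩ := Polynomial.isUnit_iff.1 hass
  have h4 := congrArg (fun p : L[X] => p.coeff 4) h
  simp only [← hrq, gpoly, ← C_pow, mul_add, mul_one, ← mul_assoc, ← C_mul, coeff_add, coeff_C_mul, coeff_X_pow, coeff_C] at h4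
  norm_num at h4
  exact hc h4

/-- the ring of the standard etale pair over a field of characteristic zero is a domain -/
lemma isDomain_pair_ring {c : L} (hc : c ≠ 0) : IsDomain (pair L c).Ring := by
  let F := FractionRing L[X]
  let P := pair L c
  let PF := P.map (algebraMap L[X] F)
  have hPf : PF.f = X ^ 2 - C (algebraMap L[X] F (gpoly L c)) := by
    simp [PF, P, pair]
  have hPg : PF.g = X := by
    simp [PF, P, pair]
  have hns : ∀ b : F, b ^ 2 ≠ algebraMap L[X] F (gpoly L c) := by
    intro b hb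
    have hint : IsIntegral L[X] b := by
      refine ⟨X ^ 2 - C (gpoly L c), monic_X_pow_sub_C _ (by norm_num), ?_⟩
      simp [hb]
    obtain ⟨q, rfl⟩ := (IsIntegrallyClosed.isIntegral_iff (R := L[X]) (K := F)).1 hint
    rw [← map_pow] at hb
    exact gpoly_ne_sq L hc q (IsFractionRing.injective L[X] F hb)
  have hirr : Irreducible PF.f := by
    rw [hPf]
    exact X_pow_sub_C_irreducible_of_prime Nat.prime_two hns
  have : Fact (Irreducible PF.f) := ⟨hirr⟩
  have hne : AdjoinRoot.mk PF.f PF.g ≠ 0 := by
    rw [hPg]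
    intro h0
    rw [AdjoinRoot.mk_eq_zero] at h0
    have := natDegree_le_of_dvd h0 X_ne_zero
    rw [hPf, natDegree_X_pow_sub_C, natDegree_X] at this
    norm_num at this
  have hdomF : IsDomain PF.Ring := by
    have : IsDomain (Localization.Away (AdjoinRoot.mk PF.f PF.g)) :=
      IsLocalization.isDomain_localization (powers_le_nonZeroDivisors_of_noZeroDivisors hne)
    exact PF.equivAwayAdjoinRoot.toRingEquiv.toMulEquiv.isDomain _
  -- the injection
  let PP : StandardEtalePresentation L[X] P.Ring :=
    ⟨P, P.X, P.hasMap_X, by simpa [StandardEtalePair.lift_X_left] using Function.bijective_id⟩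
  have hdomF' : IsDomain (PP.baseChange (T := F)).Ring := hdomF
  have hdomT : IsDomain (F ⊗[L[X]] P.Ring) :=
    (PP.baseChange (T := F)).equivRing.toRingEquiv.toMulEquiv.isDomain _
  have hflat : Module.Flat L[X] P.Ring := inferInstance
  have hinj : Function.Injective (Algebra.TensorProduct.includeRight : P.Ring →ₐ[L[X]] F ⊗[L[X]] P.Ring) :=
    Algebra.TensorProduct.includeRight_injective (IsFractionRing.injective L[X] F)
  exact hinj.isDomain (Algebra.TensorProduct.includeRight : P.Ring →ₐ[L[X]] F ⊗[L[X]] P.Ring).toRingHom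

end field

section baseChange

/-- the base ring `ℚ[t, 1/t]` -/
abbrev B₀ : Type := Localization.Away (X : ℚ[X])

/-- the coordinate `t` -/
noncomputable def tt : B₀ := algebraMap ℚ[X] B₀ X

lemma isUnit_tt : IsUnit tt := IsLocalization.Away.algebraMap_isUnit _

/-- the total ring -/
abbrev B₁ : Type := (pair B₀ tt).Ring

noncomputable instance : Algebra B₀ B₁ := ((algebraMap B₀[X] B₁).comp C).toAlgebra

instance : IsScalarTower B₀ B₀[X] B₁ := IsScalarTower.of_algebraMap_eq' rfl

attribute [local instance] Polynomial.algebra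

lemma isDomain_tensor (L : Type) [Field L] [Algebra B₀ L] : IsDomain (L ⊗[B₀] B₁) := by
  let : Algebra ℚ L := ((algebraMap B₀ L).comp (algebraMap ℚ B₀)).toAlgebra
  let c : L := algebraMap B₀ L tt
  have hc : c ≠ 0 := (isUnit_tt.map (algebraMap B₀ L)).ne_zero
  let PP : StandardEtalePresentation B₀[X] B₁ :=
    ⟨pair B₀ tt, (pair B₀ tt).X, (pair B₀ tt).hasMap_X, by simpa [StandardEtalePair.lift_X_left] using Function.bijective_id⟩
  have h1 : (PP.baseChange (T := L[X])).P = pair L c := pair_map (algebraMap B₀ L) tt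
  have h2 : IsDomain (PP.baseChange (T := L[X])).Ring := by
    rw [h1]
    exact isDomain_pair_ring L hc
  have h3 : IsDomain (L[X] ⊗[B₀[X]] B₁) :=
    (PP.baseChange (T := L[X])).equivRing.toRingEquiv.toMulEquiv.isDomain _
  exact (Algebra.IsPushout.cancelBaseChangeAlg B₀ L B₀[X] L[X] B₁).symm.toRingEquiv.toMulEquiv.isDomain _

end baseChange

end Pool.Agent.H.MP_024832_nt
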