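import Pool.Agent.H.MP_024832_nt.Ring

open Polynomial TensorProduct CategoryTheory Limits AlgebraicGeometry

namespace Pool.Agent.H.MP_024832_nt

instance : Algebra.Smooth B₀ B₀[X] where
  formallySmooth := Algebra.FormallySmooth.polynomial B₀
  finitePresentation := Algebra.FinitePresentation.polynomial B₀ B₀

instance : Algebra.Smooth B₀ B₁ := Algebra.Smooth.comp B₀ B₀[X] B₁

/-- the universal fibration over `𝔾ₘ` -/
noncomputable def q : Spec (CommRingCat.of B₁) ⟶ Spec (CommRingCat.of B₀) :=
  Spec.map (CommRingCat.ofHom (algebraMap B₀ B₁))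

instance : Smooth q := by
  rw [q, HasRingHomProperty.Spec_iff (P := @Smooth)]
  rw [CommRingCat.hom_ofHom, RingHom.smooth_algebraMap]
  infer_instance

instance : ObjectProperty.IsClosedUnderIsomorphisms (C := Scheme) AlgebraicGeometry.IsIntegral where
  of_iso {X Y} e h := by
    have := h
    have : Nonempty X := inferInstance
    have : Nonempty Y := ⟨e.hom this.some⟩
    exact isIntegral_of_isOpenImmersion e.inv

instance : GeometricallyIntegral q := by
  refine ⟨geometrically_iff_of_commRing_of_isClosedUnderIsomorphisms.mpr ?_⟩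
  intro K _ _
  have := isDomain_tensor K
  let e : pullback q (Spec.map (CommRingCat.ofHom (algebraMap B₀ K))) ≅ Spec (CommRingCat.of (K ⊗[B₀] B₁)) :=
    pullbackSymmetry _ _ ≪≫ pullbackSpecIso B₀ K B₁
  exact ObjectProperty.prop_of_iso (P := AlgebraicGeometry.IsIntegral) e.symm inferInstance

lemma of_isPullback_of_isIso {A B C D : Scheme.{0}} {fst : A ⟶ B} {snd : A ⟶ C} {f : B ⟶ D} {g : C ⟶ D}
    (h : IsPullback fst snd f g) [IsIso g] [GeometricallyIrreducible snd] : GeometricallyIrreducible f := by
  have hiso' := h.isIso_fst_of_isIso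
  have heq : f = inv fst ≫ snd ≫ g := by
    rw [IsIso.eq_inv_comp]; exact h.w
  have h1 : GeometricallyIrreducible (snd ≫ g) :=
    (MorphismProperty.cancel_right_of_respectsIso (P := @GeometricallyIrreducible) snd g).2 inferInstance
  rw [heq]
  exact (MorphismProperty.cancel_left_of_respectsIso (P := @GeometricallyIrreducible) (inv fst) (snd ≫ g)).2 h1

/-- If `i : V ⟶ E` is an open immersion of integral schemes and `p : X ⟶ V` is geometrically
irreducible, then the generic fibre of `p ≫ i` is geometrically irreducible. -/
lemma geometricallyIrreducible_genericFibre {X V E : Scheme.{0}} (p : X ⟶ V) (i : V ⟶ E) [IsOpenImmersion i]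
    [IrreducibleSpace V] [IrreducibleSpace E] [GeometricallyIrreducible p] :
    GeometricallyIrreducible ((p ≫ i).fiberToSpecResidueField (genericPoint E)) := by
  have hgen : genericPoint E = i (genericPoint V) := (genericPoint_eq_of_isOpenImmersion i).symm
  rw [hgen]
  have hpb : IsPullback (𝟙 X) p (p ≫ i) i := by
    have h1 : IsPullback (𝟙 V) (𝟙 V) i i := IsKernelPair.id_of_mono i
    have h2 : IsPullback p (𝟙 X) (𝟙 V) p := IsPullback.of_vert_isIso ⟨by simp⟩
    have := h2.flip.paste_vert h1.flip
    simpa using this
  have h := isPullback_fiberToSpecResidueField_of_isPullback hpb (genericPoint V)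
  have hiso : IsIso (Spec.map (i.residueFieldMap (genericPoint V))) := inferInstance
  have hp : GeometricallyIrreducible (p.fiberToSpecResidueField (genericPoint V)) :=
    MorphismProperty.pullback_snd (P := @GeometricallyIrreducible) _ _ inferInstance
  exact @of_isPullback_of_isIso _ _ _ _ _ _ _ _ h hiso hp

end Pool.Agent.H.MP_024832_nt
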